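import Mathlib
import Pool.Agent.Helper479.Bond.VK
import Pool.Agent.W136.K9.Defs

set_option autoImplicit false

namespace Pool.Agent.W174.K9

open Set Pool.Agent.W136.K9 Pool.Agent.Helper479.Bond

variable {V : Type} {G : SimpleGraph V} {c : V → V → Fin 2} {p : Fin 2 → V → ℂ}
    {γ : Fin 2 → V → V → ℝ → ℂ} {i : Fin 2}

/-- The part of the drawing of colour class `i` inside a set of vertices. -/
def Dr (G : SimpleGraph V) (c : V → V → Fin 2) (p : Fin 2 → V → ℂ)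
    (γ : Fin 2 → V → V → ℝ → ℂ) (i : Fin 2) (X : Set V) : Set ℂ :=
  {z | (∃ u ∈ X, z = p i u) ∨
    ∃ u ∈ X, ∃ v ∈ X, G.Adj u v ∧ c u v = i ∧ ∃ t ∈ Icc (0:ℝ) 1, z = γ i u v t}

theorem Dr_mono {X Y : Set V} (h : X ⊆ Y) : Dr G c p γ i X ⊆ Dr G c p γ i Y := by
  rintro z (⟨u, hu, hz⟩ | ⟨u, hu, v, hv, h1, h2, t, ht, hz⟩)
  · exact Or.inl ⟨u, h hu, hz⟩
  · exact Or.inr ⟨u, h hu, v, h hv, h1, h2, t, ht, hz⟩

theorem edge_joined (hv : Val G c p γ) {X : Set V} {u v : V} (hu : u ∈ X) (hv' : v ∈ X)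
    (h1 : G.Adj u v) (h2 : c u v = i) : JoinedIn (Dr G c p γ i X) (p i u) (p i v) := by
  obtain ⟨hc, -, h0, h1', -, -⟩ := hv.2.2 i u v h1 h2
  refine JoinedIn.ofLine (f := γ i u v) hc h0 h1' ?_
  rintro z ⟨t, ht, rfl⟩
  exact Or.inr ⟨u, hu, v, hv', h1, h2, t, ht, rfl⟩

theorem conn_joined (hv : Val G c p γ) {X : Set V} : ∀ l : List V,
    ConnL (fun u v => G.Adj u v ∧ c u v = i) l → (∀ x ∈ l, x ∈ X) →
    ∀ x ∈ l, ∀ y ∈ l, JoinedIn (Dr G c p γ i X) (p i x) (p i y) := by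
  intro l
  induction l with
  | nil => intro h; exact h.elim
  | cons v l ih =>
    match l, ih with
    | [], _ =>
      intro _ hX x hx y hy
      simp only [List.mem_singleton] at hx hy
      rw [hx, hy]
      exact JoinedIn.refl (Or.inl ⟨v, hX v (by simp), rfl⟩)
    | w :: l, ih =>
      rintro ⟨⟨x0, hx0, hA, hcol⟩, hc⟩ hX
      have ih' := ih hc (fun x hx => hX x (List.mem_cons_of_mem _ hx))
      have key : ∀ x ∈ v :: w :: l, JoinedIn (Dr G c p γ i X) (p i x) (p i w) := by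
        intro x hx
        rcases List.mem_cons.1 hx with rfl | hx
        · exact (edge_joined hv (hX x (by simp)) (hX x0 (List.mem_cons_of_mem _ hx0)) hA hcol).trans
            (ih' x0 hx0 w (by simp))
        · exact ih' x hx w (by simp)
      intro x hx y hy
      exact (key x hx).trans (key y hy).symm

theorem mem_Dr (hv : Val G c p γ) {X : Set V} {z : ℂ} (hz : z ∈ Dr G c p γ i X) :
    (∃ u ∈ X, z = p i u) ∨
    ∃ u ∈ X, ∃ v ∈ X, G.Adj u v ∧ c u v = i ∧ ∃ t : ℝ, 0 < t ∧ t < 1 ∧ γ i u v t = z := by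
  rcases hz with ⟨u, hu, hz⟩ | ⟨u, hu, v, hv', h1, h2, t, ht, hz⟩
  · exact Or.inl ⟨u, hu, hz⟩
  · obtain ⟨-, -, h0, h1', -, -⟩ := hv.2.2 i u v h1 h2
    rcases eq_or_lt_of_le ht.1 with h | h
    · left; exact ⟨u, hu, by rw [hz, ← h, h0]⟩
    rcases eq_or_lt_of_le ht.2 with h' | h'
    · left; exact ⟨v, hv', by rw [hz, h', h1']⟩
    · right; exact ⟨u, hu, v, hv', h1, h2, t, h, h', hz.symm⟩

theorem Dr_disjoint (hv : Val G c p γ) (hcr : Cr G c γ = ∅) {X Y : Set V} (h : Disjoint X Y) :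
    Disjoint (Dr G c p γ i X) (Dr G c p γ i Y) := by
  rw [Set.disjoint_left]
  intro z hz hz'
  have hne : ∀ a ∈ X, ∀ b ∈ Y, a ≠ b := fun a ha b hb hab => Set.disjoint_left.mp h ha (hab ▸ hb)
  rcases mem_Dr hv hz with ⟨u, hu, e⟩ | ⟨u, hu, v, hv', h1, h2, t, ht, ht', e⟩ <;>
  rcases mem_Dr hv hz' with ⟨u', hu', e'⟩ | ⟨u', hu', v', hv'', h1', h2', t', htt, htt', e'⟩
  · exact hne u hu u' hu' (hv.2.1 i (e.symm.trans e'))
  · exact (hv.2.2 i u' v' h1' h2').2.2.2.2.2 t' htt htt' u (e'.trans e)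
  · exact (hv.2.2 i u v h1 h2).2.2.2.2.2 t ht ht' u' (e.trans e')
  · have : ((i, u, v, u', v', z) : Fin 2 × V × V × V × V × ℂ) ∈ Cr G c γ := by
      refine ⟨h1, h1', h2, h2', ?_, ?_, ⟨t, ht, ht', e⟩, ⟨t', htt, htt', e'⟩⟩
      · rintro ⟨h, -⟩; exact hne u hu u' hu' h
      · rintro ⟨h, -⟩; exact hne u hu v' hv'' h
    rw [hcr] at this
    exact this

theorem branch_joined (hv : Val G c p γ) {A B : List V}
    (hA : ConnL (fun u v => G.Adj u v ∧ c u v = i) A)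
    (hB : ConnL (fun u v => G.Adj u v ∧ c u v = i) B)
    {x y : V} (hx : x ∈ A) (hy : y ∈ B) (h : ∃ u ∈ A, ∃ v ∈ B, G.Adj u v ∧ c u v = i) :
    JoinedIn (Dr G c p γ i ({z | z ∈ A} ∪ {z | z ∈ B})) (p i x) (p i y) := by
  obtain ⟨u, hu, v, hv', h1, h2⟩ := h
  have a1 := conn_joined hv (X := {z | z ∈ A} ∪ {z | z ∈ B}) A hA (fun x hx => Or.inl hx) x hx u hu
  have a2 := conn_joined hv (X := {z | z ∈ A} ∪ {z | z ∈ B}) B hB (fun x hx => Or.inr hx) v hv' y hy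
  exact (a1.trans (edge_joined hv (Or.inl hu) (Or.inr hv') h1 h2)).trans a2

theorem exists_mem {A : V → V → Prop} : ∀ l : List V, ConnL A l → ∃ x, x ∈ l
  | [], h => h.elim
  | v :: _, _ => ⟨v, by simp⟩

theorem top5 : S_top5 := by
  intro V G c p γ i hv hcr B hB hd ha
  choose x hx using fun a => exists_mem (B a) (hB a)
  have hdis : ∀ a b, a ≠ b → Disjoint {z | z ∈ B a} {z | z ∈ B b} := by
    intro a b hab
    rw [Set.disjoint_left]
    intro z hz hz'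
    exact hd a b hab z hz z hz' rfl
  refine VK.k5_joined (fun a => p i (x a))
    (fun a b => Dr G c p γ i ({z | z ∈ B a} ∪ {z | z ∈ B b})) ?_ ?_
  · intro a b hab
    exact branch_joined hv (hB a) (hB b) (hx a) (hx b) (ha a b hab)
  · intro a b c' d _ _ h1 h2 h3 h4
    apply Dr_disjoint hv hcr
    rw [Set.disjoint_union_left, Set.disjoint_union_right, Set.disjoint_union_right]
    exact ⟨⟨hdis _ _ h1, hdis _ _ h2⟩, ⟨hdis _ _ h3, hdis _ _ h4⟩⟩

theorem top33 : S_top33 := by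
  intro V G c p γ i hv hcr B hB hd ha
  choose x hx using fun a => exists_mem (B a) (hB a)
  have hdis : ∀ a b, a ≠ b → Disjoint {z | z ∈ B a} {z | z ∈ B b} := by
    intro a b hab
    rw [Set.disjoint_left]
    intro z hz hz'
    exact hd a b hab z hz z hz' rfl
  refine VK.k33_joined (fun a => p i (x a))
    (fun a b => Dr G c p γ i ({z | z ∈ B a} ∪ {z | z ∈ B b})) ?_ ?_
  · intro a b h1 h2
    exact branch_joined hv (hB a) (hB b) (hx a) (hx b) (ha a b h1 h2)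
  · intro a b c' d h1 h2 h3 h4 h5 h6
    apply Dr_disjoint hv hcr
    rw [Set.disjoint_union_left, Set.disjoint_union_right, Set.disjoint_union_right]
    refine ⟨⟨hdis _ _ h5, hdis _ _ ?_⟩, ⟨hdis _ _ ?_, hdis _ _ h6⟩⟩
    · intro h; rw [h] at h1; omega
    · intro h; rw [h] at h2; omega

end Pool.Agent.W174.K9
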