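import Mathlib
import Pool.Agent.W136.K9.Defs

set_option autoImplicit false

namespace Pool.Agent.W174.K9

open Set Pool.Agent.W136.K9

variable {V : Type} {G : SimpleGraph V} {c : V → V → Fin 2} {p : Fin 2 → V → ℂ}
    {γ : Fin 2 → V → V → ℝ → ℂ}

/-- Crossing tuples of one colour class. -/
def Ci (G : SimpleGraph V) (c : V → V → Fin 2) (γ : Fin 2 → V → V → ℝ → ℂ) (i : Fin 2) :
    Set (Fin 2 × V × V × V × V × ℂ) := {x | x ∈ Cr G c γ ∧ x.1 = i}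

theorem fin2 : ∀ a b c : Fin 2, a ≠ b → c ≠ b → c = a := by decide

theorem transplant [Finite V] (hv : Val G c p γ) (hfin : (Cr G c γ).Finite)
    (hopt : ∀ (c' : V → V → Fin 2) (p' : Fin 2 → V → ℂ) (γ' : Fin 2 → V → V → ℝ → ℂ),
      Val G c' p' γ' → (Cr G c' γ').Finite → (Cr G c γ).ncard ≤ (Cr G c' γ').ncard)
    (i0 i1 : Fin 2) (h01 : i0 ≠ i1) (ψ : V ≃ V)
    (hψ : ∀ u v, (G.Adj u v ∧ c u v = i1) ↔ (G.Adj (ψ u) (ψ v) ∧ c (ψ u) (ψ v) = i0)) :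
    (Cr G c γ).ncard ≤ 2 * (Ci G c γ i0).ncard := by
  classical
  let p' : Fin 2 → V → ℂ := fun j u => if j = i1 then p i0 (ψ u) else p j u
  let γ' : Fin 2 → V → V → ℝ → ℂ := fun j u v => if j = i1 then γ i0 (ψ u) (ψ v) else γ j u v
  have hp1 : p' i1 = fun u => p i0 (ψ u) := by funext u; simp [p']
  have hp0 : ∀ j, j ≠ i1 → p' j = p j := by intro j hj; funext u; simp [p', hj]
  have hγ1 : ∀ u v, γ' i1 u v = γ i0 (ψ u) (ψ v) := by intro u v; simp [γ']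
  have hγ0 : ∀ j, j ≠ i1 → ∀ u v, γ' j u v = γ j u v := by intro j hj u v; simp [γ', hj]
  have hval : Val G c p' γ' := by
    refine ⟨hv.1, ?_, ?_⟩
    · intro j
      by_cases hj : j = i1
      · subst hj
        rw [hp1]
        intro u v h
        exact ψ.injective (hv.2.1 i0 h)
      · rw [hp0 j hj]; exact hv.2.1 j
    · intro j u v h1 h2
      by_cases hj : j = i1
      · subst hj
        obtain ⟨a1, a2⟩ := (hψ u v).1 ⟨h1, h2⟩
        obtain ⟨b1, b2, b3, b4, b5, b6⟩ := hv.2.2 i0 _ _ a1 a2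
        rw [hγ1, hγ1, hp1]
        exact ⟨b1, b2, b3, b4, b5, fun t ht ht' w => b6 t ht ht' (ψ w)⟩
      · rw [hγ0 j hj, hγ0 j hj, hp0 j hj]
        exact hv.2.2 j u v h1 h2
  let f : (Fin 2 × V × V × V × V × ℂ) → (Fin 2 × V × V × V × V × ℂ) := fun x =>
    (i1, ψ.symm x.2.1, ψ.symm x.2.2.1, ψ.symm x.2.2.2.1, ψ.symm x.2.2.2.2.1, x.2.2.2.2.2)
  have hfinI : (Ci G c γ i0).Finite := hfin.subset (fun x hx => hx.1)
  have hsub : Cr G c γ' ⊆ Ci G c γ i0 ∪ f '' (Ci G c γ i0) := by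
    rintro ⟨j, u, v, u', v', z⟩ ⟨h1, h2, h3, h4, h5, h6, ⟨t, ht⟩, ⟨t', ht'⟩⟩
    simp only at h1 h2 h3 h4 h5 h6 ht ht'
    by_cases hj : j = i1
    · right
      subst hj
      rw [hγ1] at ht ht'
      obtain ⟨a1, a2⟩ := (hψ u v).1 ⟨h1, h3⟩
      obtain ⟨a3, a4⟩ := (hψ u' v').1 ⟨h2, h4⟩
      refine ⟨(i0, ψ u, ψ v, ψ u', ψ v', z), ⟨⟨a1, a3, a2, a4, ?_, ?_, ⟨t, ht⟩, ⟨t', ht'⟩⟩, rfl⟩, ?_⟩
      · rintro ⟨e1, e2⟩; exact h5 ⟨ψ.injective e1, ψ.injective e2⟩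
      · rintro ⟨e1, e2⟩; exact h6 ⟨ψ.injective e1, ψ.injective e2⟩
      · simp [f]
    · left
      rw [hγ0 j hj] at ht ht'
      have hj0 : j = i0 := fin2 i0 i1 j h01 hj
      exact ⟨⟨h1, h2, h3, h4, h5, h6, ⟨t, ht⟩, ⟨t', ht'⟩⟩, hj0⟩
  have hfinU : (Ci G c γ i0 ∪ f '' (Ci G c γ i0)).Finite := hfinI.union (hfinI.image f)
  have h1 := hopt c p' γ' hval (hfinU.subset hsub)
  have h2 := Set.ncard_le_ncard hsub hfinU
  have h3 := Set.ncard_union_le (Ci G c γ i0) (f '' (Ci G c γ i0))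
  have h4 := Set.ncard_image_le (f := f) hfinI
  omega

theorem eight (hv : Val G c p γ) (hfin : (Cr G c γ).Finite) (i : Fin 2)
    (hne : (Ci G c γ i).Nonempty) : 8 ≤ (Ci G c γ i).ncard := by
  obtain ⟨⟨j, u, v, u', v', z⟩, ⟨h1, h2, h3, h4, h5, h6, ⟨t, ht, ht', hz⟩, ⟨s, hs, hs', hz'⟩⟩, hj⟩ := hne
  simp only at h1 h2 h3 h4 h5 h6 ht ht' hs hs' hj hz hz'
  subst hj
  have hfinI : (Ci G c γ j).Finite := hfin.subset (fun x hx => hx.1)
  have k1 : c v u = j := by rw [← hv.1 u v h1]; exact h3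
  have k2 : c v' u' = j := by rw [← hv.1 u' v' h2]; exact h4
  have e1 : ∃ t : ℝ, 0 < t ∧ t < 1 ∧ γ j u v t = z := ⟨t, ht, ht', hz⟩
  have e1' : ∃ t : ℝ, 0 < t ∧ t < 1 ∧ γ j v u t = z :=
    ⟨1 - t, by linarith, by linarith, by
      rw [(hv.2.2 j u v h1 h3).2.2.2.2.1 (1 - t) (by linarith) (by linarith)]; simpa using hz⟩
  have e2 : ∃ t : ℝ, 0 < t ∧ t < 1 ∧ γ j u' v' t = z := ⟨s, hs, hs', hz'⟩
  have e2' : ∃ t : ℝ, 0 < t ∧ t < 1 ∧ γ j v' u' t = z :=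
    ⟨1 - s, by linarith, by linarith, by
      rw [(hv.2.2 j u' v' h2 h4).2.2.2.2.1 (1 - s) (by linarith) (by linarith)]; simpa using hz'⟩
  have n1 : u ≠ v := h1.ne
  have n2 : u' ≠ v' := h2.ne
  let f : Fin 8 → (Fin 2 × V × V × V × V × ℂ) :=
    ![(j, u, v, u', v', z), (j, v, u, u', v', z), (j, u, v, v', u', z), (j, v, u, v', u', z),
      (j, u', v', u, v, z), (j, v', u', u, v, z), (j, u', v', v, u, z), (j, v', u', v, u, z)]
  have hmem : ∀ a, f a ∈ Ci G c γ j := by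
    intro a
    fin_cases a
    · exact ⟨⟨h1, h2, h3, h4, h5, h6, e1, e2⟩, rfl⟩
    · exact ⟨⟨h1.symm, h2, k1, h4, by simp only; tauto, by simp only; tauto, e1', e2⟩, rfl⟩
    · exact ⟨⟨h1, h2.symm, h3, k2, by simp only; tauto, by simp only; tauto, e1, e2'⟩, rfl⟩
    · exact ⟨⟨h1.symm, h2.symm, k1, k2, by simp only; tauto, by simp only; tauto, e1', e2'⟩, rfl⟩
    · refine ⟨⟨h2, h1, h4, h3, ?_, ?_, e2, e1⟩, rfl⟩
      · rintro ⟨a, b⟩; exact h5 ⟨a.symm, b.symm⟩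
      · rintro ⟨a, b⟩; exact h6 ⟨b.symm, a.symm⟩
    · refine ⟨⟨h2.symm, h1, k2, h3, ?_, ?_, e2', e1⟩, rfl⟩
      · rintro ⟨a, b⟩; exact h6 ⟨a.symm, b.symm⟩
      · rintro ⟨a, b⟩; exact h5 ⟨b.symm, a.symm⟩
    · refine ⟨⟨h2, h1.symm, h4, k1, ?_, ?_, e2, e1'⟩, rfl⟩
      · rintro ⟨a, b⟩; exact h6 ⟨b.symm, a.symm⟩
      · rintro ⟨a, b⟩; exact h5 ⟨a.symm, b.symm⟩
    · refine ⟨⟨h2.symm, h1.symm, k2, k1, ?_, ?_, e2', e1'⟩, rfl⟩
      · rintro ⟨a, b⟩; exact h5 ⟨b.symm, a.symm⟩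
      · rintro ⟨a, b⟩; exact h6 ⟨a.symm, b.symm⟩
  have hinj : Function.Injective f := by
    intro a b h
    have n1' := n1.symm
    have n2' := n2.symm
    have h5a : ¬ (u' = u ∧ v' = v) := fun h => h5 ⟨h.1.symm, h.2.symm⟩
    have h6a : ¬ (v' = u ∧ u' = v) := fun h => h6 ⟨h.1.symm, h.2.symm⟩
    fin_cases a <;> fin_cases b <;> first | rfl | (exfalso; simp [f] at h; tauto)
  have := Set.ncard_le_ncard (s := Set.range f) (t := Ci G c γ j)
    (by rintro _ ⟨a, rfl⟩; exact hmem a) hfinI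
  have h8 : (Set.range f).ncard = 8 := by
    rw [← Set.image_univ, Set.ncard_image_of_injective _ hinj, Set.ncard_univ]
    simp
  omega

theorem trans : S_trans := by
  intro V _ G c p γ hv hfin ⟨φ⟩ hopt hlt
  have hadj : ∀ (i : Fin 2) (u v : V),
      (SimpleGraph.fromRel (fun u v => G.Adj u v ∧ c u v = i)).Adj u v ↔
        (G.Adj u v ∧ c u v = i) := by
    intro i u v
    rw [SimpleGraph.fromRel_adj]
    constructor
    · rintro ⟨-, h | ⟨h1, h2⟩⟩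
      · exact h
      · exact ⟨h1.symm, by rw [← hv.1 v u h1]; exact h2⟩
    · intro h; exact ⟨h.1.ne, Or.inl h⟩
  have t0 := transplant hv hfin hopt 0 1 (by decide) φ.symm.toEquiv (by
    intro u v
    rw [← hadj 1 u v, ← hadj 0]
    exact (φ.symm.map_rel_iff (a := u) (b := v)).symm)
  have t1 := transplant hv hfin hopt 1 0 (by decide) φ.toEquiv (by
    intro u v
    rw [← hadj 0 u v, ← hadj 1]
    exact (φ.map_rel_iff (a := u) (b := v)).symm)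
  by_contra hne
  obtain ⟨x, hx⟩ := Set.nonempty_iff_ne_empty.2 hne
  have hun : Ci G c γ 0 ∪ Ci G c γ 1 = Cr G c γ := by
    ext y
    constructor
    · rintro (h | h) <;> exact h.1
    · intro h
      have : y.1 = 0 ∨ y.1 = 1 := by
        rcases y with ⟨j, _⟩
        fin_cases j <;> simp
      rcases this with h' | h'
      · exact Or.inl ⟨h, h'⟩
      · exact Or.inr ⟨h, h'⟩
  have hf0 : (Ci G c γ 0).Finite := hfin.subset (fun x hx => hx.1)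
  have hf1 : (Ci G c γ 1).Finite := hfin.subset (fun x hx => hx.1)
  have hdis : Disjoint (Ci G c γ 0) (Ci G c γ 1) := by
    rw [Set.disjoint_left]
    intro y h0 h1
    have := h0.2.symm.trans h1.2
    exact absurd this (by decide)
  have hsum : (Cr G c γ).ncard = (Ci G c γ 0).ncard + (Ci G c γ 1).ncard := by
    rw [← hun, Set.ncard_union_eq hdis hf0 hf1]
  have hx' : x ∈ Ci G c γ 0 ∪ Ci G c γ 1 := by rw [hun]; exact hx
  rcases hx' with h | h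
  · have := eight hv hfin 0 ⟨x, h⟩
    omega
  · have := eight hv hfin 1 ⟨x, h⟩
    omega

end Pool.Agent.W174.K9
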